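import Pool.Agent.J6H84.TS.Stm

/-!
# Module TS-LIN of helper84's project TS: a regular `p`-group of automorphisms implies linear
-/

set_option autoImplicit false

namespace Pool.Agent.J6H85.TS.Lin

open Finset Pool.Agent.H430R2.PermCubes Pool.Agent.J6H84.LM Pool.Agent.J6H84.TS

theorem main : S_Lin := by
  intro p _ m k C hmk hC P hP u χ hχ
  have hp0 : 0 < p := (Fact.out : p.Prime).pos
  have : NeZero p := ⟨hp0.ne'⟩
  let x0 : Fin m → Fin p := fun _ => ⟨0, hp0⟩
  let Y : P → (Fin k → ZMod p) := fun σ i => χ i σ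
  have hadd : ∀ σ σ' : P, Y (σ * σ') = Y σ + Y σ' := by
    intro σ σ'
    funext i
    have e1 := hχ i (σ * σ') x0
    have e2 := hχ i σ (σ'.1 x0)
    have e3 := hχ i σ' x0
    have e4 : (σ * σ').1 x0 = σ.1 (σ'.1 x0) := rfl
    rw [e4, e2, e3, add_assoc] at e1
    have e5 := add_left_cancel e1
    show χ i (σ * σ') = χ i σ + χ i σ'
    rw [← e5, add_comm]
  have hagree : ∀ x y : Fin m → Fin p, (∀ i, C i x = C i y) → x = y := by
    intro x y hxy
    exact hC.eq_of_agree Finset.univ (by simpa using hmk) (fun i _ => hxy i)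
  have hYinj : Function.Injective Y := by
    intro σ σ' h
    apply Subtype.ext
    apply Equiv.ext
    intro x
    apply hagree
    intro i
    apply (u i).injective
    rw [hχ, hχ]
    have h1 : χ i σ = χ i σ' := congrFun h i
    rw [h1]
  let f : Additive P →+ (Fin k → ZMod p) :=
    { toFun := fun σ => Y (Additive.toMul σ)
      map_zero' := by
        have h1 := hadd 1 1
        rw [mul_one] at h1
        exact left_eq_add.mp h1
      map_add' := fun σ σ' => hadd _ _ }
  let L : Submodule (ZMod p) (Fin k → ZMod p) := AddSubgroup.toZModSubmodule p f.range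
  have hL : ∀ v, v ∈ L ↔ ∃ σ : P, Y σ = v := by
    intro v
    show v ∈ AddSubgroup.toZModSubmodule p f.range ↔ _
    rw [AddSubgroup.mem_toZModSubmodule]
    constructor
    · rintro ⟨σ, hσ⟩
      exact ⟨Additive.toMul σ, hσ⟩
    · rintro ⟨σ, hσ⟩
      exact ⟨Additive.ofMul σ, hσ⟩
  let g0 : P → L := fun σ => ⟨Y σ, (hL _).mpr ⟨σ, rfl⟩⟩
  have hg0 : Function.Bijective g0 := by
    constructor
    · intro σ σ' h
      exact hYinj (congrArg Subtype.val h)
    · rintro ⟨v, hv⟩
      obtain ⟨σ, rfl⟩ := (hL v).mp hv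
      exact ⟨σ, rfl⟩
  let g : P ≃ L := Equiv.ofBijective g0 hg0
  have hcardL : Nat.card L = p ^ m := by rw [← Nat.card_congr g, hP]
  have hfin : Module.finrank (ZMod p) L = m := by
    have h1 : Nat.card L = Nat.card (ZMod p) ^ Module.finrank (ZMod p) L :=
      Module.natCard_eq_pow_finrank
    rw [Nat.card_zmod, hcardL] at h1
    exact (Nat.pow_right_injective (Fact.out : p.Prime).two_le h1).symm
  let lam : L ≃ₗ[ZMod p] (Fin m → ZMod p) :=
    LinearEquiv.ofFinrankEq _ _ (by rw [hfin, Module.finrank_fin_fun])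
  have hactinj : Function.Injective (fun σ : P => σ.1 x0) := by
    intro σ σ' h
    apply hYinj
    funext i
    have e1 := hχ i σ x0
    have e2 := hχ i σ' x0
    have e3 : σ.1 x0 = σ'.1 x0 := h
    rw [e3, e2] at e1
    exact (add_left_cancel e1).symm
  have hact : Function.Bijective (fun σ : P => σ.1 x0) := by
    rw [Nat.bijective_iff_injective_and_card]
    refine ⟨hactinj, ?_⟩
    rw [hP, Nat.card_fun, Nat.card_fin, Nat.card_fin]
  let act : P ≃ (Fin m → Fin p) := Equiv.ofBijective _ hact
  refine ⟨act.symm.trans (g.trans lam.toEquiv), fun i => ?_⟩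
  let form : (Fin m → ZMod p) →ₗ[ZMod p] ZMod p :=
    (LinearMap.proj i).comp (L.subtype.comp lam.symm.toLinearMap)
  refine ⟨fun l => form (fun j => if l = j then 1 else 0), ?_⟩
  have hform : ∀ v : Fin m → ZMod p,
      ∑ l, form (fun j => if l = j then 1 else 0) * v l = form v := by
    intro v
    rw [LinearMap.pi_apply_eq_sum_univ form v]
    refine Finset.sum_congr rfl fun l _ => ?_
    rw [smul_eq_mul, mul_comm]
  have hval : ∀ x : Fin m → Fin p,
      u i (C i x) = u i (C i x0) + form ((act.symm.trans (g.trans lam.toEquiv)) x) := by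
    intro x
    obtain ⟨σ, rfl⟩ := act.surjective x
    have h1 : form ((act.symm.trans (g.trans lam.toEquiv)) (act σ)) = χ i σ := by
      show (lam.symm (lam (g (act.symm (act σ)))) : L).1 i = χ i σ
      rw [LinearEquiv.symm_apply_apply, Equiv.symm_apply_apply]
      rfl
    rw [h1]
    exact hχ i σ x0
  intro x y hxy
  rw [hform, hform] at hxy
  apply (u i).injective
  rw [hval x, hval y, hxy]

end Pool.Agent.J6H85.TS.Lin
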